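import Mathlib

namespace Pool.Agent.Results.MP_5bb224_al.Intersection

open Matrix hiding SpecialLinearGroup

variable {F : Type} [Field F]

theorem cm (A B : Matrix.SpecialLinearGroup (Fin 2) F) : (A * B).1 = A.1 * B.1 := rfl

theorem ci (A : Matrix.SpecialLinearGroup (Fin 2) F) : (A⁻¹).1 * A.1 = 1 :=
  congrArg Subtype.val (inv_mul_cancel A)

theorem ci' (A : Matrix.SpecialLinearGroup (Fin 2) F) : A.1 * (A⁻¹).1 = 1 :=
  congrArg Subtype.val (mul_inv_cancel A)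

def K (φ : F →+* F) (Q : Matrix (Fin 2) (Fin 2) F) : Subgroup (Matrix.SpecialLinearGroup (Fin 2) F) where
  carrier := {M | ∃ N : Matrix.SpecialLinearGroup (Fin 2) F, Matrix.SpecialLinearGroup.map φ N = N ∧
    M.1 * Q = Q * N.1}
  one_mem' := ⟨1, map_one _, by simp⟩
  mul_mem' := by
    rintro M M' ⟨N, h1, h2⟩ ⟨N', h1', h2'⟩
    refine ⟨N * N', by rw [map_mul, h1, h1'], ?_⟩
    rw [cm, cm, mul_assoc, h2', ← mul_assoc, h2,
      mul_assoc]
  inv_mem' := by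
    rintro M ⟨N, h1, h2⟩
    refine ⟨N⁻¹, by rw [map_inv, h1], ?_⟩
    have e1 : (M⁻¹).1 * M.1 = 1 := ci M
    have e2 : N.1 * (N⁻¹).1 = 1 := ci' N
    calc (M⁻¹).1 * Q = (M⁻¹).1 * (Q * N.1) * (N⁻¹).1 := by
          rw [mul_assoc, mul_assoc, e2, mul_one]
      _ = _ := by rw [← h2, ← mul_assoc, e1, one_mul]

theorem mem_K {φ : F →+* F} {Q : Matrix (Fin 2) (Fin 2) F} {M : Matrix.SpecialLinearGroup (Fin 2) F}
    (a b c d : F) (hd : a * d - b * c = 1) (ha : φ a = a) (hb : φ b = b) (hc : φ c = c)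
    (hd' : φ d = d) (h : M.1 * Q = Q * !![a, b; c, d]) : M ∈ K φ Q := by
  refine ⟨⟨!![a, b; c, d], by rw [det_fin_two_of, hd]⟩, Subtype.ext ?_, h⟩
  ext i j; fin_cases i <;> fin_cases j <;> simp [ha, hb, hc, hd']

theorem center_le (φ : F →+* F) (Q : Matrix (Fin 2) (Fin 2) F) :
    Subgroup.center (Matrix.SpecialLinearGroup (Fin 2) F) ≤ K φ Q := by
  intro z hz
  obtain ⟨r, hr, hz'⟩ := Matrix.SpecialLinearGroup.mem_center_iff.1 hz
  have hr : r * r = 1 := by simpa [pow_two] using hr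
  have hφ : φ r = r := by rcases mul_self_eq_one_iff.1 hr with rfl | rfl <;> simp
  refine mem_K r 0 0 r (by simp [hr]) hφ (map_zero _) (map_zero _) hφ ?_
  rw [← hz']
  ext i j; fin_cases i <;> fin_cases j <;> simp [mul_apply, Fin.sum_univ_two, mul_comm]

theorem omega_facts {p e : ℕ} (hp : 3 ≤ p) (he : 3 ≤ e) {j : F} (hj : orderOf j = p ^ e - 1)
    (φ : F →+* F) (hφ : ∀ x, φ x = x ^ p) :
    j ≠ 0 ∧ j ^ p ^ e = j ∧ j + j⁻¹ ≠ 0 ∧ φ ((j + j⁻¹) ^ 2) ≠ (j + j⁻¹) ^ 2 := by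
  have hbig : 9 * p ≤ p ^ e := by
    calc 9 * p ≤ p * p * p := by nlinarith [Nat.mul_le_mul hp hp]
      _ = p ^ 3 := by ring
      _ ≤ p ^ e := Nat.pow_le_pow_right (by omega) he
  have h1 : j ^ (p ^ e - 1) = 1 := hj ▸ pow_orderOf_eq_one j
  have h0 : j ≠ 0 := by
    rintro rfl
    rw [zero_pow (by omega)] at h1; exact zero_ne_one h1
  have hsmall : ∀ n, 0 < n → n ≤ 2 * p + 2 → j ^ n ≠ 1 := fun n h h' =>
    pow_ne_one_of_lt_orderOf (by omega) (by omega)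
  refine ⟨h0, ?_, fun h => hsmall 4 (by omega) (by omega) ?_, fun h => ?_⟩
  · rw [show p ^ e = p ^ e - 1 + 1 by omega, pow_succ, h1, one_mul]
  · have : j * j = -1 := by field_simp at h; linear_combination h
    calc j ^ 4 = (j * j) ^ 2 := by ring
      _ = 1 := by rw [this]; ring
  · rw [map_pow, map_add, map_inv₀, hφ] at h
    obtain ⟨q, rfl⟩ : ∃ q, p = q + 1 := ⟨p - 1, by omega⟩
    have a1 := hsmall (2 * q) (by omega) (by omega)
    have a2 := hsmall (2 * (q + 2)) (by omega) (by omega)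
    have hq : j ^ q ≠ 0 := pow_ne_zero _ h0
    rw [mul_comm, pow_mul] at a1 a2
    rw [pow_add] at a2
    rw [pow_succ j q] at h
    generalize j ^ q = u at *
    have : (u ^ 2 - 1) * ((u * j ^ 2) ^ 2 - 1) = 0 := by
      field_simp at h; linear_combination h
    rcases mul_eq_zero.1 this with h | h
    · exact a1 (sub_eq_zero.1 h)
    · exact a2 (sub_eq_zero.1 h)

theorem not_sum (φ1 φ2 φ : F →+* F) (hc : ∀ x, φ1 (φ2 x) = φ2 (φ1 x))
    (hg : ∀ x, φ1 x = x → φ2 x = x → φ x = x) (h2 : (2 : F) ≠ 0) {w1 w2 y u v : F}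
    (h1 : φ1 w1 = w1) (h1' : φ2 w2 = w2) (n1 : φ (w1 ^ 2) ≠ w1 ^ 2) (n2 : φ (w2 ^ 2) ≠ w2 ^ 2)
    (z1 : w1 ≠ 0) (z2 : w2 ≠ 0)
    (hy : y ^ 2 = 1 - 4 / w1 ^ 2 - 4 / w2 ^ 2) (hu : φ1 u = u) (hv : φ2 v = v) : y ≠ u + v := by
  rintro rfl
  have h4 : (4 : F) ≠ 0 := by rw [show (4 : F) = 2 * 2 by norm_num]; exact mul_ne_zero h2 h2
  have e1 := congrArg φ1 hy
  have e2 := congrArg φ2 hy
  have e3 := congrArg φ1 e2
  have hu' : φ1 (φ2 u) = φ2 u := by rw [hc, hu]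
  have hw' : φ1 (φ2 w1) = φ2 w1 := by rw [hc, h1]
  simp only [map_pow, map_add, map_sub, map_div₀, map_one, map_ofNat, hu, hv, h1, h1', hu', hw']
    at e1 e2 e3
  have : 2 * ((u - φ2 u) * (v - φ1 v)) = 0 := by linear_combination hy - e1 - e2 + e3
  rcases mul_eq_zero.1 ((mul_eq_zero.1 this).resolve_left h2) with h | h
  · rw [← sub_eq_zero.1 h] at e2
    have z : φ2 w1 ≠ 0 := by simpa using z1
    have : 4 / φ2 w1 ^ 2 = 4 / w1 ^ 2 := by linear_combination e2 - hy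
    rw [div_eq_div_iff (pow_ne_zero _ z) (pow_ne_zero _ z1)] at this
    exact n1 (hg _ (by rw [map_pow, h1]) (by rw [map_pow]; exact (mul_left_cancel₀ h4 this).symm))
  · rw [← sub_eq_zero.1 h] at e1
    have z : φ1 w2 ≠ 0 := by simpa using z2
    have : 4 / φ1 w2 ^ 2 = 4 / w2 ^ 2 := by linear_combination e1 - hy
    rw [div_eq_div_iff (pow_ne_zero _ z) (pow_ne_zero _ z2)] at this
    exact n2 (hg _ (by rw [map_pow]; exact (mul_left_cancel₀ h4 this).symm) (by rw [map_pow, h1']))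

theorem result (p e₁ e₂ : ℕ) (hp : p.Prime) (hodd : Odd p) (h₁ : 1 < e₁) (h₂ : 1 < e₂)
    (o₁ : Odd e₁) (o₂ : Odd e₂) (hcop : Nat.Coprime e₁ e₂)
    (F : Type) [Field F] [Fintype F] (hF : Fintype.card F = p ^ (e₁ * e₂))
    (j₁ j₂ w₁ w₂ r : F) (hj₁ : orderOf j₁ = p ^ e₁ - 1) (hj₂ : orderOf j₂ = p ^ e₂ - 1)
    (hw₁ : w₁ = j₁ + j₁⁻¹) (hw₂ : w₂ = j₂ + j₂⁻¹)
    (hr : r ^ 2 = w₁ ^ 2 * w₂ ^ 2 - 4 * (w₁ ^ 2 + w₂ ^ 2))
    (s₁ s₂ s₃ : Matrix.SpecialLinearGroup (Fin 2) F)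
    (hs₁ : s₁.1 = !![w₁ / 2, (w₁ + 2) / 2; (w₁ - 2) / 2, w₁ / 2])
    (hs₂ : s₂.1 = !![(2 + w₁) / 2, w₁ / 2; -w₁ / 2, (2 - w₁) / 2])
    (hs₃ : s₃.1 = !![w₂ / (2 * w₁) * (w₁ - 2), r / (2 * w₁); r / (2 * w₁), w₂ / (2 * w₁) * (w₁ + 2)]) :
    Subgroup.closure {(QuotientGroup.mk s₁ : ProjectiveSpecialLinearGroup (Fin 2) F),
        QuotientGroup.mk s₂} ⊓
      Subgroup.closure {(QuotientGroup.mk s₂ : ProjectiveSpecialLinearGroup (Fin 2) F),
        QuotientGroup.mk s₃} =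
      Subgroup.zpowers (QuotientGroup.mk s₂ : ProjectiveSpecialLinearGroup (Fin 2) F) := by
  have : Fact p.Prime := ⟨hp⟩
  have : CharP F p := charP_of_card_eq_prime_pow hF
  have hp3 : 3 ≤ p := by have := hp.two_le; obtain ⟨k, rfl⟩ := hodd; omega
  have h2 : (2 : F) ≠ 0 := fun h => by
    have := Nat.le_of_dvd (by omega) ((CharP.cast_eq_zero_iff F p 2).1 (by exact_mod_cast h))
    omega
  obtain ⟨a1, b1, z1, n1⟩ := omega_facts hp3 (by obtain ⟨k, rfl⟩ := o₁; omega) hj₁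
    (frobenius F p) (fun _ => rfl)
  obtain ⟨a2, b2, z2, n2⟩ := omega_facts hp3 (by obtain ⟨k, rfl⟩ := o₂; omega) hj₂
    (frobenius F p) (fun _ => rfl)
  set φ1 := iterateFrobenius F p e₁
  set φ2 := iterateFrobenius F p e₂
  have f1 : φ1 w₁ = w₁ := by rw [hw₁, map_add, map_inv₀, show φ1 j₁ = j₁ from b1]
  have f2 : φ2 w₂ = w₂ := by rw [hw₂, map_add, map_inv₀, show φ2 j₂ = j₂ from b2]
  rw [← hw₁] at z1 n1
  rw [← hw₂] at z2 n2
  have hg : ∀ x, φ1 x = x → φ2 x = x → frobenius F p x = x := by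
    intro x hx hx'
    have e1 : Function.IsPeriodicPt (frobenius F p) e₁ x := (iterate_frobenius p e₁ x).trans hx
    have e2 : Function.IsPeriodicPt (frobenius F p) e₂ x := (iterate_frobenius p e₂ x).trans hx'
    have := e1.gcd e2
    rw [hcop] at this; exact this
  have hns : ∀ u v, φ1 u = u → φ2 v = v → r / (w₁ * w₂) ≠ u + v := fun u v hu hv =>
    not_sum φ1 φ2 _ (fun x => by
      simp only [φ1, φ2, iterateFrobenius_def, ← pow_mul, mul_comm]) hg h2 f1 f2 n1 n2 z1 z2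
      (by field_simp; linear_combination hr) hu hv
  let P : Matrix (Fin 2) (Fin 2) F := !![1, w₁⁻¹; -1, w₁⁻¹]
  let δ : F := (1 + r / (w₁ * w₂)) / 2
  let T : Matrix (Fin 2) (Fin 2) F := !![1, δ; 0, 1]
  have hP : IsUnit P := by
    rw [isUnit_iff_isUnit_det, det_fin_two_of, isUnit_iff_ne_zero]
    rw [show 1 * w₁⁻¹ - w₁⁻¹ * -1 = 2 * w₁⁻¹ by ring]
    exact mul_ne_zero h2 (inv_ne_zero z1)
  have s2P : s₂.1 * P = P * !![1, 1; 0, 1] := by
    rw [hs₂]; ext i j; fin_cases i <;> fin_cases j <;> simp [P] <;> field_simp <;> ring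
  have m1 : s₁ ∈ K φ1 P := mem_K 0 w₁⁻¹ (-w₁) w₁ (by field_simp; ring) (by simp) (by simp [f1])
    (by simp [f1]) f1 (by
      rw [hs₁]; ext i j; fin_cases i <;> fin_cases j <;> simp [P] <;> field_simp <;> ring)
  have m2 : s₂ ∈ K φ1 P := mem_K 1 1 0 1 (by simp) (by simp) (by simp) (by simp) (by simp) s2P
  have m2' : s₂ ∈ K φ2 (P * T) := mem_K 1 1 0 1 (by simp) (by simp) (by simp) (by simp) (by simp) (by
    rw [← mul_assoc, s2P, mul_assoc, mul_assoc]; congr 1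
    ext i j; fin_cases i <;> fin_cases j <;> simp [T, add_comm])
  have m3 : s₃ ∈ K φ2 (P * T) := mem_K w₂ w₂⁻¹ (-w₂) 0 (by field_simp; ring) f2 (by simp [f2])
    (by simp [f2]) (by simp) (by
      rw [hs₃]; ext i j; fin_cases i <;> fin_cases j <;> simp [P, T, δ] <;> field_simp
      · ring
      · linear_combination -hr
      · ring
      · linear_combination hr)
  refine le_antisymm ?_ ?_
  swap
  · rw [Subgroup.zpowers_le]
    exact ⟨Subgroup.subset_closure (by simp), Subgroup.subset_closure (by simp)⟩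
  rintro g ⟨hg1, hg2⟩
  have l1 := (Subgroup.closure_le ((K φ1 P).map (QuotientGroup.mk' _))).2 (by
    rintro _ (rfl | rfl); exacts [⟨_, m1, rfl⟩, ⟨_, m2, rfl⟩]) hg1
  have l2 := (Subgroup.closure_le ((K φ2 (P * T)).map (QuotientGroup.mk' _))).2 (by
    rintro _ (rfl | rfl); exacts [⟨_, m2', rfl⟩, ⟨_, m3, rfl⟩]) hg2
  obtain ⟨M', hM', rfl⟩ := l1
  obtain ⟨M, hM2, he⟩ := l2
  have hM1 : M ∈ K φ1 P := by
    have := (K φ1 P).mul_mem hM' ((K φ1 P).inv_mem (center_le φ1 P (QuotientGroup.eq.1 he)))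
    simpa using this
  rw [← he]
  obtain ⟨N, hN, hMN⟩ := hM1
  obtain ⟨N', hN', hMN'⟩ := hM2
  have hT : N.1 * T = T * N'.1 := by
    rw [← mul_assoc, hMN, mul_assoc, mul_assoc] at hMN'
    exact hP.mul_left_cancel hMN'
  have g1 : ∀ i j, φ1 (N.1 i j) = N.1 i j := fun i j => congrFun₂ (congrArg Subtype.val hN) i j
  have g2 : ∀ i j, φ2 (N'.1 i j) = N'.1 i j := fun i j => congrFun₂ (congrArg Subtype.val hN') i j
  have t00 := congrFun₂ hT 0 0
  have t01 := congrFun₂ hT 0 1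
  have t10 := congrFun₂ hT 1 0
  have t11 := congrFun₂ hT 1 1
  simp [T, mul_apply, Fin.sum_univ_two] at t00 t01 t10 t11
  have hdet : N.1 0 0 * N.1 1 1 - N.1 0 1 * N.1 1 0 = 1 := by rw [← det_fin_two]; exact N.2
  have key : ∀ c u v : F, φ2 c = c → φ1 c = c → φ1 u = u → φ2 v = v → δ * c = u + v → c = 0 := by
    intro c u v c2 c1 hu hv h
    by_contra hc
    refine hns (2 * u / c - 1) (2 * v / c) (by simp [map_ofNat, hu, c1]) (by simp [map_ofNat, hv, c2]) ?_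
    have : r / (w₁ * w₂) = 2 * δ - 1 := by simp only [δ]; field_simp; ring
    rw [this]; field_simp; linear_combination 2 * h
  have c0 : N'.1 1 0 = 0 := key _ (N.1 0 0) (-N'.1 0 0) (g2 _ _) (t10 ▸ g1 1 0) (g1 _ _)
    (by simp [g2]) (by linear_combination -t00)
  rw [c0] at t00 t10
  rw [t10] at t11 hdet
  simp only [mul_zero, add_zero, zero_mul, zero_add, sub_zero] at t00 t11 hdet
  have d0 : N.1 0 0 - N.1 1 1 = 0 := key _ (-N.1 0 1) (N'.1 0 1) (by rw [t00, t11]; simp [g2])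
    (by simp [g1]) (by simp [g1]) (g2 _ _) (by rw [← t11] at t01; linear_combination t01)
  have d1 : N.1 1 1 = N.1 0 0 := by linear_combination -d0
  have b0 : N.1 0 1 = N'.1 0 1 := by rw [← t11, d1] at t01; linear_combination t01
  rw [d1] at hdet
  have hb : frobenius F p (N.1 0 1 * N.1 0 0) = N.1 0 1 * N.1 0 0 :=
    hg _ (by simp [g1]) (by rw [b0, t00]; simp [g2])
  obtain ⟨n, hn⟩ := (mem_bot_iff_intCast p F).1 ((Subfield.mem_bot_iff_pow_eq_self F p).2 hb)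
  have hpow : ∀ m : ℕ, (s₂ ^ m).1 * P = P * !![1, (m : F); 0, 1] := by
    intro m; induction m with
    | zero => simp [← one_fin_two]
    | succ m ih =>
      rw [pow_succ, cm, mul_assoc, s2P, ← mul_assoc, ih, mul_assoc]
      congr 1; ext i j; fin_cases i <;> fin_cases j <;> simp [add_comm]
  obtain ⟨m, hm⟩ : ∃ m : ℕ, (m : F) = n := ⟨(n % p).toNat, by
    rw [← Int.cast_natCast, Int.toNat_of_nonneg (Int.emod_nonneg _ (by omega))]
    exact (CharP.intCast_eq_intCast_mod F p).symm⟩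
  refine ⟨(m : ℤ), ?_⟩
  simp only [zpow_natCast, ← QuotientGroup.mk_pow, QuotientGroup.mk'_apply]
  refine QuotientGroup.eq.2 (Matrix.SpecialLinearGroup.mem_center_iff.2 ⟨N.1 0 0, by simpa [pow_two] using hdet, ?_⟩)
  have e1 : ((s₂ ^ m)⁻¹).1 * (s₂ ^ m).1 = 1 := ci _
  have e2 : M.1 = (s₂ ^ m).1 * scalar (Fin 2) (N.1 0 0) := by
    refine hP.mul_right_cancel ?_
    rw [hMN, mul_assoc, (scalar_commute _ (Commute.all _) P).eq, ← mul_assoc, hpow, mul_assoc]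
    congr 1
    ext i j; fin_cases i <;> fin_cases j <;> simp [t10, d1, hm, hn]
    linear_combination -(N.1 0 1) * hdet
  rw [cm, e2, ← mul_assoc, e1, one_mul]

end Pool.Agent.Results.MP_5bb224_al.Intersection
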